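import Pool.Agent.SymMader.Hall

/-!
# Colouring a digraph without a subdivided bioriented cycle with `ℓ` colours, up to a small set

Let `ℓ ≥ 3` and let `G` be a finite digraph which contains no subdivision of the bioriented cycle of
length `ℓ`. Then the vertices can be partitioned into `ℓ` acyclic sets and one further set which is
smaller than the first of the acyclic sets. In particular one of the acyclic sets has more than
`n / (ℓ + 1)` of the `n` vertices.
-/

set_option autoImplicit false

namespace Pool.Agent.Results.MP_a16da7_co.AlmostColouring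

/-- `G` contains a subdivision of the bioriented cycle of length `ℓ` (verbatim the conclusion of
frozen statement S10487): branch vertices `b i`, and for every `i` modulo `ℓ` a path `P i false`
from `b i` to `b (i + 1)` and a path `P i true` from `b (i + 1)` to `b i`, all internally
disjoint. -/
def ContainsSubdivision {V : Type} (G : Digraph V) (ℓ : ℕ) : Prop :=
  ∃ (b : ZMod ℓ → V) (L : ZMod ℓ → Bool → ℕ) (P : ZMod ℓ → Bool → ℕ → V),
    Function.Injective b ∧
    (∀ i d, 1 ≤ L i d) ∧
    (∀ i, P i false 0 = b i ∧ P i false (L i false) = b (i + 1) ∧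
          P i true 0 = b (i + 1) ∧ P i true (L i true) = b i) ∧
    (∀ i d j, j < L i d → G.Adj (P i d j) (P i d (j + 1))) ∧
    (∀ i d j, 0 < j → j < L i d → ∀ m, P i d j ≠ b m) ∧
    (∀ i d j i' d' j', 0 < j → j < L i d → 0 < j' → j' < L i' d' →
        P i d j = P i' d' j' → i = i' ∧ d = d' ∧ j = j')

theorem class_sum {V : Type} [Finite V] {m : ℕ} (c : V → Fin m) :
    ∑ j, Set.ncard {v | c v = j} = Nat.card V := by
  classical
  have : Fintype V := Fintype.ofFinite V
  have h : ∀ j, Set.ncard {v | c v = j} = (Finset.univ.filter (fun v => c v = j)).card := by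
    intro j
    rw [← Set.ncard_coe_finset]
    congr 1
    ext v; simp
  simp only [h]
  rw [Nat.card_eq_fintype_card, ← Finset.card_univ]
  exact (Finset.card_eq_sum_card_fiberwise (fun v _ => Finset.mem_univ (c v))).symm

/-- Let `ℓ ≥ 3` and let `G` be a finite, nonempty, loopless digraph without a subdivision of the
bioriented cycle of length `ℓ`. Then there is a colouring `c` with the colours `0, ..., ℓ` such that
the classes of the colours `0, ..., ℓ - 1` are acyclic (there is a function `r` which increases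
along every arc inside such a class) and the class of the colour `ℓ` has fewer vertices than the
class of `0`. Moreover some acyclic class has more than `n / (ℓ + 1)` vertices. -/
theorem result : ∀ ℓ : ℕ, 3 ≤ ℓ → ∀ (V : Type) [Finite V] [Nonempty V] (G : Digraph V),
    (∀ v, ¬ G.Adj v v) → ¬ ContainsSubdivision G ℓ →
    ∃ (c : V → Fin (ℓ + 1)) (r : V → ℕ),
      (∀ u v, G.Adj u v → c u = c v → c u ≠ Fin.last ℓ → r u < r v) ∧
      Set.ncard {v | c v = Fin.last ℓ} < Set.ncard {v | c v = 0} ∧
      ∃ j, j ≠ Fin.last ℓ ∧ Nat.card V < (ℓ + 1) * Set.ncard {v | c v = j} := by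
  classical
  intro ℓ hℓ V _ _ G hloop hN
  obtain ⟨q, rfl⟩ : ∃ q, ℓ = q + 2 := ⟨ℓ - 2, by omega⟩
  obtain ⟨J, g, _, hg, hcard⟩ := Pool.Agent.SymMader.almost (A := G.Adj) (q := q) (by omega) hloop hN
    _ Set.univ Set.univ_nonempty rfl
  obtain ⟨e, he⟩ : ∃ e : Option (ZMod (q + 1)) → Fin (q + 2), Function.Injective e ∧
      e none = 0 := by
    have hc : Fintype.card (Option (ZMod (q + 1))) = q + 2 := by
      rw [Fintype.card_option, ZMod.card]
    obtain ⟨e0⟩ : Nonempty (Option (ZMod (q + 1)) ≃ Fin (q + 2)) :=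
      ⟨Fintype.equivFinOfCardEq hc⟩
    refine ⟨fun x => Equiv.swap (e0 none) 0 (e0 x), ?_, ?_⟩
    · exact (Equiv.injective _).comp e0.injective
    · exact Equiv.swap_apply_left _ _
  obtain ⟨c, hc⟩ : ∃ c : V → Fin (q + 2 + 1), c = fun v => if v ∈ J then Fin.last (q + 2) else
    Fin.castSucc (e (g v)) := ⟨_, rfl⟩
  have cJ : ∀ v, v ∈ J → c v = Fin.last (q + 2) := by intro v hv; simp [hc, hv]
  have cX : ∀ v, v ∉ J → c v = Fin.castSucc (e (g v)) := by intro v hv; simp [hc, hv]
  have clast : ∀ v, c v = Fin.last (q + 2) → v ∈ J := by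
    intro v hv
    by_contra h
    rw [cX v h] at hv
    exact absurd hv (Fin.castSucc_lt_last _).ne
  have hlt : Set.ncard {v | c v = Fin.last (q + 2)} < Set.ncard {v | c v = 0} := by
    have h1 : {v | c v = Fin.last (q + 2)} ⊆ J := fun v hv => clast v hv
    have h2 : {v | v ∈ Set.univ \ J ∧ g v = none} ⊆ {v | c v = 0} := by
      rintro v ⟨hv, hv'⟩
      show c v = 0
      rw [cX v hv.2, hv', he.2]; rfl
    have h3 := Set.ncard_le_ncard h1 (Set.toFinite _)
    have h4 := Set.ncard_le_ncard h2 (Set.toFinite _)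
    omega
  refine ⟨c, fun v => {u | Relation.TransGen
    (Pool.Agent.Hhelper50.Mader.Mono G.Adj (Set.univ \ J) g ∅) u v}.ncard, ?_, hlt, ?_⟩
  · intro u v huv hcc hne
    have hu : u ∉ J := fun h => hne (cJ u h)
    have hv : v ∉ J := fun h => hne (hcc.trans (cJ v h))
    have hgg : g u = g v := by
      rw [cX u hu, cX v hv] at hcc
      exact he.1 (Fin.castSucc_injective _ hcc)
    have hM : Pool.Agent.Hhelper50.Mader.Mono G.Adj (Set.univ \ J) g ∅ u v :=
      ⟨⟨trivial, hu⟩, ⟨trivial, hv⟩, Set.notMem_empty _, Set.notMem_empty _, huv, hgg⟩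
    refine Set.ncard_lt_ncard ⟨?_, ?_⟩ (Set.toFinite _)
    · intro x hx
      exact Relation.TransGen.tail hx hM
    · intro hsub
      exact hg u (hsub (Relation.TransGen.single hM))
  · by_contra hcon
    push Not at hcon
    have hsum := class_sum c
    have h1 : (q + 2 + 1) * ∑ j, Set.ncard {v | c v = j} < ∑ _j : Fin (q + 2 + 1), Nat.card V := by
      rw [Finset.mul_sum]
      have h0 : (0 : Fin (q + 2 + 1)) ≠ Fin.last (q + 2) := by
        intro h
        have := congrArg Fin.val h
        simp at this
      refine Finset.sum_lt_sum ?_ ⟨Fin.last (q + 2), Finset.mem_univ _, ?_⟩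
      · intro j _
        by_cases hj : j = Fin.last (q + 2)
        · rw [hj]
          exact (Nat.mul_le_mul_left _ hlt.le).trans (hcon 0 h0)
        · exact hcon j hj
      · exact (Nat.mul_lt_mul_of_pos_left hlt (by omega)).trans_le (hcon 0 h0)
    rw [hsum, Finset.sum_const, Finset.card_univ, Fintype.card_fin, smul_eq_mul] at h1
    exact lt_irrefl _ h1

end Pool.Agent.Results.MP_a16da7_co.AlmostColouring
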