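import Pool.Agent.Hhelper50.Mader.Alpha

/-!
# Digraphs of bounded independence number and subdivisions of bioriented cycles

Let `ℓ ≥ 3` and `α ≥ 1`. Every finite digraph in which every independent set has at most `α`
vertices and whose dichromatic number is at least `ℓ + 2 α - 1` contains a subdivision of the
bioriented cycle of length `ℓ`. For `α = 1` these are the semicomplete digraphs (for example the
tournaments), and dichromatic number at least `ℓ + 1` is enough.
-/

set_option autoImplicit false

namespace Pool.Agent.Results.MP_a16da7_co.BoundedIndependence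

/-- `G` contains a subdivision of the bioriented cycle of length `ℓ` (verbatim the conclusion of
frozen statement S10487): branch vertices `b i`, and for every `i` modulo `ℓ` a path `P i false`
from `b i` to `b (i + 1)` and a path `P i true` from `b (i + 1)` to `b i`, all internally
disjoint. -/
def ContainsSubdivision {V : Type} (G : Digraph V) (ℓ : ℕ) : Prop :=
  ∃ (b : ZMod ℓ → V) (L : ZMod ℓ → Bool → ℕ) (P : ZMod ℓ → Bool → ℕ → V),
    Function.Injective b ∧
    (∀ i d, 1 ≤ L i d) ∧
    (∀ i, P i false 0 = b i ∧ P i false (L i false) = b (i + 1) ∧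
          P i true 0 = b (i + 1) ∧ P i true (L i true) = b i) ∧
    (∀ i d j, j < L i d → G.Adj (P i d j) (P i d (j + 1))) ∧
    (∀ i d j, 0 < j → j < L i d → ∀ m, P i d j ≠ b m) ∧
    (∀ i d j i' d' j', 0 < j → j < L i d → 0 < j' → j' < L i' d' →
        P i d j = P i' d' j' → i = i' ∧ d = d' ∧ j = j')

/-- `G` has dichromatic number at least `k`, written as in frozen statement S10487: there is no
colouring with `k - 1` colours together with a rank function which increases along every arc inside
a colour class. -/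
def DichromaticAtLeast {V : Type} (G : Digraph V) (k : ℕ) : Prop :=
  ¬ ∃ (c : V → Fin (k - 1)) (r : V → ℕ), ∀ u v, G.Adj u v → c u = c v → r u < r v

/-- Every independent set of vertices of `G` has at most `α` elements. -/
def IndependenceAtMost {V : Type} (G : Digraph V) (α : ℕ) : Prop :=
  ∀ T : Finset V, (∀ u ∈ T, ∀ v ∈ T, ¬ G.Adj u v) → T.card ≤ α

theorem result :
    (∀ ℓ α : ℕ, 3 ≤ ℓ → 1 ≤ α → ∀ (V : Type) [Finite V] (G : Digraph V),
      (∀ v, ¬ G.Adj v v) → IndependenceAtMost G α → DichromaticAtLeast G (ℓ + 2 * α - 1) →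
      ContainsSubdivision G ℓ) ∧
    (∀ ℓ : ℕ, 3 ≤ ℓ → ∀ (V : Type) [Finite V] (G : Digraph V),
      (∀ v, ¬ G.Adj v v) → (∀ u v, u ≠ v → G.Adj u v ∨ G.Adj v u) →
      DichromaticAtLeast G (ℓ + 1) → ContainsSubdivision G ℓ) := by
  classical
  have main : ∀ ℓ α : ℕ, 3 ≤ ℓ → 1 ≤ α → ∀ (V : Type) [Finite V] (G : Digraph V),
      (∀ v, ¬ G.Adj v v) → IndependenceAtMost G α → DichromaticAtLeast G (ℓ + 2 * α - 1) →
      ContainsSubdivision G ℓ := by
    intro ℓ α hℓ hα V _ G hloop hind hchi
    obtain ⟨q, rfl⟩ : ∃ q, ℓ = q + 2 := ⟨ℓ - 2, by omega⟩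
    refine Pool.Agent.Hhelper50.Mader.neck_of_alpha (A := G.Adj) (q := q) (α := α) (by omega)
      hloop hind ?_
    rintro ⟨f, hf⟩
    apply hchi
    have hcard : Fintype.card (ZMod (q + 1) ⊕ Option (Bool × Fin (α - 1))) =
        q + 2 + 2 * α - 1 - 1 := by
      rw [Fintype.card_sum, ZMod.card, Fintype.card_option, Fintype.card_prod, Fintype.card_bool,
        Fintype.card_fin]
      omega
    let e : (ZMod (q + 1) ⊕ Option (Bool × Fin (α - 1))) ≃ Fin (q + 2 + 2 * α - 1 - 1) :=
      Fintype.equivFinOfCardEq hcard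
    refine ⟨fun v => e (f v), fun v => {u | Relation.TransGen
      (Pool.Agent.Hhelper50.Mader.Mono G.Adj Set.univ f ∅) u v}.ncard, ?_⟩
    intro u v huv hc
    have hfe : f u = f v := e.injective hc
    have hM : Pool.Agent.Hhelper50.Mader.Mono G.Adj Set.univ f ∅ u v :=
      ⟨trivial, trivial, Set.notMem_empty _, Set.notMem_empty _, huv, hfe⟩
    refine Set.ncard_lt_ncard ⟨?_, ?_⟩ (Set.toFinite _)
    · intro x hx
      exact Relation.TransGen.tail hx hM
    · intro hsub
      exact hf u (hsub (Relation.TransGen.single hM))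
  refine ⟨main, ?_⟩
  intro ℓ hℓ V _ G hloop hsemi hchi
  refine main ℓ 1 hℓ le_rfl V G hloop ?_ (by simpa using hchi)
  intro T hT
  rw [Finset.card_le_one]
  intro a ha b hb
  by_contra hab
  rcases hsemi a b hab with h | h
  · exact hT a ha b hb h
  · exact hT b hb a ha h

end Pool.Agent.Results.MP_a16da7_co.BoundedIndependence
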