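import Pool.Agent.SymMader.Chrom
import Pool.Agent.SymMader.Lower

/-!
# The Mader number of the bioriented cycle, restricted to symmetric digraphs

For symmetric digraphs (every arc lies in a digon) the Mader number of the bioriented cycle of
length `ℓ` is exactly `max ℓ 4`, for every `ℓ ≥ 3`; in particular it is `ℓ` for `ℓ ≥ 4`, as asked.
(The proof gives it from the minimum degree: see `Pool.Agent.SymMader.neck_of_deg`.)
-/

set_option autoImplicit false

namespace Pool.Agent.Results.MP_a16da7_co.SymmetricDigraphs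

/-- `G` contains a subdivision of the bioriented cycle of length `ℓ` (verbatim the conclusion of
frozen statement S10487): branch vertices `b i`, and for every `i` modulo `ℓ` a path `P i false`
from `b i` to `b (i + 1)` and a path `P i true` from `b (i + 1)` to `b i`, all internally
disjoint. -/
def ContainsSubdivision {V : Type} (G : Digraph V) (ℓ : ℕ) : Prop :=
  ∃ (b : ZMod ℓ → V) (L : ZMod ℓ → Bool → ℕ) (P : ZMod ℓ → Bool → ℕ → V),
    Function.Injective b ∧
    (∀ i d, 1 ≤ L i d) ∧
    (∀ i, P i false 0 = b i ∧ P i false (L i false) = b (i + 1) ∧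
          P i true 0 = b (i + 1) ∧ P i true (L i true) = b i) ∧
    (∀ i d j, j < L i d → G.Adj (P i d j) (P i d (j + 1))) ∧
    (∀ i d j, 0 < j → j < L i d → ∀ m, P i d j ≠ b m) ∧
    (∀ i d j i' d' j', 0 < j → j < L i d → 0 < j' → j' < L i' d' →
        P i d j = P i' d' j' → i = i' ∧ d = d' ∧ j = j')

/-- For every `ℓ ≥ 3`, `max ℓ 4` is the least `k` such that every finite loopless symmetric digraph
with dichromatic number at least `k` contains a subdivision of the bioriented cycle of length `ℓ`.
As in frozen statement S10487, dichromatic number at least `k` is expressed by: there are no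
colouring `c` with `k - 1` colours and rank function `r` increasing along all arcs inside colour
classes. -/
theorem result :
    ∀ ℓ : ℕ, 3 ≤ ℓ →
      IsLeast {k : ℕ | ∀ (V : Type) [Finite V] (G : Digraph V),
          (∀ v, ¬ G.Adj v v) → (∀ u v, G.Adj u v → G.Adj v u) →
          (¬ ∃ (c : V → Fin (k - 1)) (r : V → ℕ),
              ∀ u v, G.Adj u v → c u = c v → r u < r v) →
          ContainsSubdivision G ℓ} (max ℓ 4) := by
  have hT : ∀ ℓ : ℕ, 3 ≤ ℓ → Pool.Agent.SymMader.TwoConn (max 3 (ℓ - 1)) (ℓ - 1) := by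
    intro ℓ hℓ
    rcases Nat.lt_or_ge ℓ 4 with h | h
    · obtain rfl : ℓ = 3 := by omega
      exact Pool.Agent.SymMader.twoConn_three
    · obtain ⟨q, rfl⟩ : ∃ q, ℓ = q + 2 := ⟨ℓ - 2, by omega⟩
      have e1 : max 3 (q + 2 - 1) = q + 1 := by omega
      have e2 : q + 2 - 1 = q + 1 := by omega
      rw [e1, e2]
      exact Pool.Agent.SymMader.twoConn_large (by omega)
  intro ℓ hℓ
  constructor
  · intro V _ G hloop hsym hcol
    have h := Pool.Agent.SymMader.neck_of_chrom (D := max 3 (ℓ - 1)) (p := ℓ - 1)
      (le_max_left _ _) (by omega) (hT ℓ hℓ) _ V G.Adj rfl hsym hloop ?_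
    · rw [Nat.sub_add_cancel (by omega)] at h
      exact h
    · rintro ⟨c, hc⟩
      have e : max ℓ 4 - 1 = max 3 (ℓ - 1) := by omega
      rw [e] at hcol
      exact hcol ⟨c, fun _ => 0, fun u v huv he => absurd he (hc u v huv)⟩
  · intro k hk
    by_contra hlt
    rcases Nat.lt_or_ge ℓ 4 with h | h
    · obtain rfl : ℓ = 3 := by omega
      exact Pool.Agent.SymMader.pent_no_neck (hk (ZMod 5) ⟨Pool.Agent.SymMader.Pent⟩
        Pool.Agent.SymMader.pent_irr Pool.Agent.SymMader.pent_symm
        (Pool.Agent.SymMader.pent_no_col (by omega)))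
    · exact Pool.Agent.SymMader.complete_no_neck (by omega) _
        (hk (Fin (ℓ - 1)) ⟨fun u v => u ≠ v⟩ (fun v h => h rfl) (fun u v h => h.symm)
          (Pool.Agent.SymMader.complete_no_col (by omega)))

end Pool.Agent.Results.MP_a16da7_co.SymmetricDigraphs
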