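import Pool.Agent.Hhelper50.Mader.Bfs

/-!
# The Mader number of the bioriented cycle of length `ℓ` is at most `2 ℓ - 1`

For every `ℓ ≥ 3` every finite loopless digraph with dichromatic number at least `2 ℓ - 1` contains
a subdivision of the bioriented cycle of length `ℓ`. In particular `4 ≤ mader ≤ 5` for `ℓ = 3`.
-/

set_option autoImplicit false

namespace Pool.Agent.Results.MP_a16da7_co.UpperBound

/-- For every `ℓ ≥ 3`, every finite loopless digraph whose vertices cannot be partitioned into
`2 ℓ - 2` acyclic sets (acyclicity of the colour classes is expressed by a rank function `r` which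
increases along monochromatic arcs) contains a subdivision of the bioriented cycle of length `ℓ`:
branch vertices `b i` and, for every `i` modulo `ℓ`, a path `P i false` from `b i` to `b (i + 1)`
and a path `P i true` from `b (i + 1)` to `b i`, all internally disjoint. -/
theorem result : ∀ ℓ : ℕ, 3 ≤ ℓ → ∀ (V : Type) [Finite V] (G : Digraph V),
    (∀ v, ¬ G.Adj v v) →
    (¬ ∃ (c : V → Fin (2 * ℓ - 2)) (r : V → ℕ),
        ∀ u v, G.Adj u v → c u = c v → r u < r v) →
    ∃ (b : ZMod ℓ → V) (L : ZMod ℓ → Bool → ℕ) (P : ZMod ℓ → Bool → ℕ → V),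
      Function.Injective b ∧
      (∀ i d, 1 ≤ L i d) ∧
      (∀ i, P i false 0 = b i ∧ P i false (L i false) = b (i + 1) ∧
            P i true 0 = b (i + 1) ∧ P i true (L i true) = b i) ∧
      (∀ i d j, j < L i d → G.Adj (P i d j) (P i d (j + 1))) ∧
      (∀ i d j, 0 < j → j < L i d → ∀ m, P i d j ≠ b m) ∧
      (∀ i d j i' d' j', 0 < j → j < L i d → 0 < j' → j' < L i' d' →
          P i d j = P i' d' j' → i = i' ∧ d = d' ∧ j = j') := by
  intro ℓ hℓ V _ G hloop hchi
  exact Pool.Agent.Hhelper50.Mader.neck_of_dichromatic (A := G.Adj) hℓ hloop hchi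

end Pool.Agent.Results.MP_a16da7_co.UpperBound
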